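import Pool.Agent.helper53.ORE.Spec

/-!
# Row C2 of the project ore (MP_561ff4_al)
-/

set_option autoImplicit false

namespace Pool.Agent.ORE

open Module Pool.Agent.GS

theorem C2_sq_smul {F V : Type} [Field F] [AddCommGroup V] [Module F V] (Q : QuadraticForm F V)
    (h2 : (2 : F) = 0) (u d : V) (lam : F) (hu : Q u = 0) (hd : pb Q u d = 0) :
    sq Q (lam • u) d = sq Q u (lam • d) := by
  have hu' : Q (lam • u) = 0 := by rw [Q_smul, hu, mul_zero]
  have hd' : pb Q (lam • u) d = 0 := by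
    rw [map_smul, LinearMap.smul_apply, hd, smul_zero]
  have hd'' : pb Q u (lam • d) = 0 := by rw [map_smul, hd, smul_zero]
  ext x
  rw [sq_apply h2 hu' hd', sq_apply h2 hu hd'']
  simp only [Q_smul, map_smul, smul_eq_mul, smul_smul]
  match_scalars <;> ring

theorem C2 (sg : SGQ_stmt) (bl : BLW_stmt) : C2_stmt := by
  intro F V _ _ _ _ _ Q h2 hQ hn y hy u a lam hlam hyu hu hua hQd hli
  have hyn : pb Q u (y a) = 0 := by
    have h1 : lam * pb Q u (y a) = 0 := by
      have h3 : pb Q (y u) (y a) = 0 := by rw [OQ_pb hy, hua]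
      rw [hyu, map_smul, LinearMap.smul_apply, smul_eq_mul] at h3
      exact h3
    rcases mul_eq_zero.1 h1 with h | h
    · exact absurd h hlam
    · exact h
  have hyn' : pb Q u (lam • y a) = 0 := by rw [map_smul, hyn, smul_zero]
  have ht : sq Q u a ∈ OmQ Q := sg Q h2 hQ hn u a hu hua
  have h1 := Gq.comm (Q := Q) (y := y) ht
  rw [sq_conj_mem h2 hy hu hua, sq_inv, hyu, C2_sq_smul Q h2 u (y a) lam hu hyn,
    sq_add h2 hu hyn' hua] at h1
  refine bl Q h2 hQ hn y 2 u (lam • y a + a) hli hu hQd ?_ h1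
  rw [map_add, hyn', hua, add_zero]

end Pool.Agent.ORE
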