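import Pool.Agent.helper53.ORE.Spec

/-!
# Row FRO of the project ore (MP_561ff4_al)
-/

set_option autoImplicit false

namespace Pool.Agent.ORE

open Module Pool.Agent.GS

theorem FRO_center (cno : CNO_stmt) {F V : Type} [Field F] [Finite F] [AddCommGroup V] [Module F V]
    [FiniteDimensional F V] (Q : QuadraticForm F V) (h2 : (2 : F) = 0) (hQ : Nd Q)
    (hn : 8 ≤ finrank F V) (s : OmQ Q) (hs : s ∈ Subgroup.center (OmQ Q)) :
    (s : Equiv.Perm V) = 1 := by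
  refine cno Q h2 hQ hn (s : Equiv.Perm V) (OmQ_le Q s.2) fun g hg => ⟨1, fun v => ?_⟩
  have h1 : (⟨g, hg⟩ : OmQ Q) * s = s * ⟨g, hg⟩ := Subgroup.mem_center_iff.1 hs ⟨g, hg⟩
  have h3 : g * (s : Equiv.Perm V) = (s : Equiv.Perm V) * g := congrArg Subtype.val h1
  rw [← h3, mul_assoc g, mul_inv_cancel, mul_one, mul_inv_cancel, Equiv.Perm.one_apply, one_smul]

theorem FRO (cno : CNO_stmt) (lrb : LRB_stmt) (ns : NSV_stmt) (ad : GS.AD_stmt) : FRO_stmt := by
  intro F V _ _ _ _ _ Q h2 hQ hn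
  classical
  -- the vector `a`
  obtain ⟨a, -, ha⟩ := ns Q h2 hQ 0 (fun i => i.elim0) (by omega)
  have haa : Q a ≠ 0 := by rw [ha]; exact one_ne_zero
  have ha0 : a ≠ 0 := fun h => haa (by rw [h, Q_zero])
  have hy : rq Q a ∈ OQ Q := rq_mem Q a
  -- the action
  obtain ⟨N, Ad, hN, hAd⟩ := ad (OmQ Q).subtype (Subgroup.subtype_injective _)
  have hmem : ∀ u : Equiv.Perm V, u ∈ OQ Q → u ∈ N := by
    intro u hu
    refine hN u (fun g => ⟨⟨u * g * u⁻¹, OmQ_conj hu g.2⟩, rfl⟩) (fun g => ?_)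
    have h3 := OmQ_conj ((OQ Q).inv_mem hu) g.2
    rw [inv_inv] at h3
    exact ⟨⟨u⁻¹ * g * u, h3⟩, rfl⟩
  have hyN := hmem _ hy
  have hx1 : Ad ⟨rq Q a, hyN⟩ ^ 2 = 1 := by
    rw [← map_pow]
    have : (⟨rq Q a, hyN⟩ : N) ^ 2 = 1 := by
      apply Subtype.ext
      rw [pow_two]
      exact rq_sq a
    rw [this, map_one]
  have hx2 : Ad ⟨rq Q a, hyN⟩ ≠ 1 := by
    intro hx
    have key : ∀ g ∈ OmQ Q, ∃ c : F, ∀ v, (rq Q a * g * (rq Q a)⁻¹ * g⁻¹) v = c • v := by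
      intro g hg
      have hh : rq Q a * g * (rq Q a)⁻¹ ∈ OmQ Q := OmQ_conj hy hg
      have h3 := hAd ⟨rq Q a, hyN⟩ ⟨g, hg⟩ ⟨_, hh⟩ rfl
      rw [hx] at h3
      have h4 : (QuotientGroup.mk (⟨g, hg⟩ : OmQ Q) : POmQ Q) =
          QuotientGroup.mk (⟨_, hh⟩ : OmQ Q) := h3
      rw [QuotientGroup.eq] at h4
      have h5 : (⟨_, hh⟩ : OmQ Q) * (⟨g, hg⟩ : OmQ Q)⁻¹ ∈ Subgroup.center (OmQ Q) := by
        have h6 := Subgroup.mem_center_iff.1 h4 ⟨g, hg⟩
        have h7 : (⟨_, hh⟩ : OmQ Q) * (⟨g, hg⟩ : OmQ Q)⁻¹ =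
            (⟨g, hg⟩ : OmQ Q)⁻¹ * (⟨_, hh⟩ : OmQ Q) := by
          rw [mul_inv_eq_iff_eq_mul, ← h6, mul_inv_cancel_left]
        rw [h7]
        exact h4
      have h6 := FRO_center cno Q h2 hQ hn _ h5
      refine ⟨1, fun v => ?_⟩
      have h7 := congrArg (fun t : Equiv.Perm V => t v) h6
      rw [one_smul]
      exact h7
    have h1 := cno Q h2 hQ hn (rq Q a) hy key
    apply ha0
    refine hQ a fun v => ?_
    have h3 := congrArg (fun t : Equiv.Perm V => t v) h1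
    simp only [Equiv.Perm.one_apply] at h3
    rw [rq_apply h2 haa, ha, div_one] at h3
    have h4 : pb Q v a • a = 0 := by
      have := congrArg (fun t => t - v) h3
      simp only [add_sub_cancel_left, sub_self] at this
      exact this
    rcases smul_eq_zero.1 h4 with h | h
    · rw [pb_symm]
      exact h
    · exact absurd h ha0
  refine ⟨Ad ⟨rq Q a, hyN⟩, ⟨rq Q a, RingEquiv.refl F, 1, QSim_of_mem hy, fun g h hgh =>
    hAd ⟨rq Q a, hyN⟩ g h hgh⟩, orderOf_eq_prime hx1 hx2, ?_⟩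
  intro k r hr hrF hG
  obtain ⟨g, hg⟩ := hG
  choose γ hγ using fun i => QuotientGroup.mk_surjective (g i)
  have hu : ∀ i, (γ i : Equiv.Perm V) ∈ OQ Q := fun i => OmQ_le Q (γ i).2
  have hconj : ∀ i, Ad ⟨(γ i : Equiv.Perm V), hmem _ (hu i)⟩ = MulAut.conj (g i) := by
    intro i
    refine MulEquiv.ext fun q => ?_
    obtain ⟨h, rfl⟩ := QuotientGroup.mk_surjective q
    rw [hAd ⟨(γ i : Equiv.Perm V), hmem _ (hu i)⟩ h (γ i * h * (γ i)⁻¹) rfl, MulAut.conj_apply,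
      ← hγ i]
    rfl
  let n : Fin k → N := fun i => ⟨(γ i : Equiv.Perm V), hmem _ (hu i)⟩ * ⟨rq Q a, hyN⟩ *
    ⟨(γ i : Equiv.Perm V), hmem _ (hu i)⟩⁻¹
  have hn1 : ∀ i, MulAut.conj (g i) * Ad ⟨rq Q a, hyN⟩ * (MulAut.conj (g i))⁻¹ = Ad (n i) := by
    intro i
    rw [map_mul, map_mul, map_inv, hconj i]
  have hrange : (Set.range fun i => MulAut.conj (g i) * Ad ⟨rq Q a, hyN⟩ *
      (MulAut.conj (g i))⁻¹) = Ad '' (Set.range n) := by
    rw [← Set.range_comp]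
    exact congrArg Set.range (funext hn1)
  rw [hrange, ← MonoidHom.map_closure] at hg
  have hd : r ∣ Nat.card (Subgroup.closure (Set.range n)) :=
    hg.trans (Subgroup.card_dvd_of_surjective (Ad.subgroupMap (Subgroup.closure (Set.range n)))
      (MonoidHom.subgroupMap_surjective Ad _))
  have hmap : (Subgroup.closure (Set.range n)).map N.subtype =
      Subgroup.closure (Set.range fun i => (γ i : Equiv.Perm V) * rq Q a *
        (γ i : Equiv.Perm V)⁻¹) := by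
    rw [MonoidHom.map_closure, ← Set.range_comp]
    rfl
  have hcard : Nat.card (Subgroup.closure (Set.range n)) = Nat.card
      (Subgroup.closure (Set.range fun i => (γ i : Equiv.Perm V) * rq Q a *
        (γ i : Equiv.Perm V)⁻¹)) := by
    rw [← hmap]
    exact Nat.card_congr (Subgroup.equivMapOfInjective _ N.subtype
      (Subgroup.subtype_injective N)).toEquiv
  rw [hcard] at hd
  exact lrb Q h2 hQ a k (fun i => (γ i : Equiv.Perm V)) hu r hr hrF hd

end Pool.Agent.ORE
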