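import Pool.Agent.helper53.ORE.Spec

/-!
# Row ONB of the project ore (MP_561ff4_al): orthonormal bases for the trace form in characteristic two
-/

set_option autoImplicit false

namespace Pool.Agent.ORE

open Module Pool.Agent.GS

/-- orthonormal families -/
def ONB_O {F V : Type} [Field F] [AddCommGroup V] [Module F V] (b : LinearMap.BilinForm F V)
    {k : ℕ} (a : Fin k → V) : Prop := ∀ i j, b (a i) (a j) = if i = j then 1 else 0

theorem ONB_li {F V : Type} [Field F] [AddCommGroup V] [Module F V] (b : LinearMap.BilinForm F V)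
    {k : ℕ} (a : Fin k → V) (ha : ONB_O b a) : LinearIndependent F a := by
  rw [Fintype.linearIndependent_iff]
  intro g hg j
  have h1 : b (∑ i, g i • a i) (a j) = 0 := by rw [hg, map_zero, LinearMap.zero_apply]
  rw [map_sum, LinearMap.sum_apply] at h1
  have h2 : ∀ i ∈ Finset.univ, b (g i • a i) (a j) = if i = j then g i else 0 := by
    intro i _
    rw [map_smul, LinearMap.smul_apply, ha i j, smul_eq_mul, mul_ite, mul_one, mul_zero]
  rw [Finset.sum_congr rfl h2, Finset.sum_ite_eq' Finset.univ j g, if_pos (Finset.mem_univ j)] at h1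
  exact h1

theorem ONB_scale {F V : Type} [Field F] [Finite F] [AddCommGroup V] [Module F V]
    (b : LinearMap.BilinForm F V) (h2 : (2 : F) = 0) (x : V) (hx : b x x ≠ 0) :
    ∃ c : F, b (c • x) (c • x) = 1 := by
  have hc : ringChar F = 2 := by
    have := charP2 h2
    exact ringChar.eq F 2
  obtain ⟨s, hs⟩ := FiniteField.isSquare_of_char_two hc (b x x)
  have hs0 : s ≠ 0 := by
    rintro rfl
    rw [mul_zero] at hs
    exact hx hs
  refine ⟨s⁻¹, ?_⟩
  simp only [map_smul, LinearMap.smul_apply, smul_eq_mul, hs]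
  field_simp

theorem ONB_proj {F V : Type} [Field F] [AddCommGroup V] [Module F V]
    (b : LinearMap.BilinForm F V) {k : ℕ} (a : Fin k → V) (ha : ONB_O b a) (v : V) (j : Fin k) :
    b (v - ∑ i, b v (a i) • a i) (a j) = 0 := by
  rw [map_sub, LinearMap.sub_apply, map_sum, LinearMap.sum_apply]
  have h2 : ∀ i ∈ Finset.univ, b (b v (a i) • a i) (a j) = if i = j then b v (a i) else 0 := by
    intro i _
    rw [map_smul, LinearMap.smul_apply, ha i j, smul_eq_mul, mul_ite, mul_one, mul_zero]
  rw [Finset.sum_congr rfl h2, Finset.sum_ite_eq' Finset.univ j (fun i => b v (a i)),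
    if_pos (Finset.mem_univ j), sub_self]

theorem ONB_app {F V : Type} [Field F] [AddCommGroup V] [Module F V]
    (b : LinearMap.BilinForm F V) (hs : ∀ x y, b x y = b y x) {k : ℕ} (a : Fin k → V)
    (ha : ONB_O b a) (w : V) (hw : b w w = 1) (h : ∀ i, b w (a i) = 0) :
    ∃ a' : Fin (k + 1) → V, ONB_O b a' := by
  refine ⟨Fin.cons w a, ?_⟩
  intro i j
  refine Fin.cases ?_ (fun i => ?_) i
  · refine Fin.cases ?_ (fun j => ?_) j
    · rw [Fin.cons_zero, hw, if_pos rfl]
    · rw [Fin.cons_zero, Fin.cons_succ, h j, if_neg (Fin.succ_ne_zero j).symm]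
  · refine Fin.cases ?_ (fun j => ?_) j
    · rw [Fin.cons_zero, Fin.cons_succ, hs, h i, if_neg (Fin.succ_ne_zero i)]
    · rw [Fin.cons_succ, Fin.cons_succ, ha i j]
      simp only [Fin.succ_inj]

/-- replacing one vector and a hyperbolic pair by three vectors -/
theorem ONB_three {F V : Type} [Field F] [AddCommGroup V] [Module F V] (h2 : (2 : F) = 0)
    (b : LinearMap.BilinForm F V) (hs : ∀ x y, b x y = b y x) {k : ℕ} (a : Fin (k + 1) → V)
    (ha : ONB_O b a) (e f : V) (hee : b e e = 0) (hff : b f f = 0) (hef : b e f = 1)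
    (he : ∀ i, b e (a i) = 0) (hf : ∀ i, b f (a i) = 0) :
    ∃ a' : Fin (k + 1 + 1 + 1) → V, ONB_O b a' := by
  have e11 : (1 : F) + 1 = 0 := add2 h2 1
  have hfe : b f e = 1 := by rw [hs, hef]
  have he' : ∀ i, b (a i) e = 0 := fun i => by rw [hs, he]
  have hf' : ∀ i, b (a i) f = 0 := fun i => by rw [hs, hf]
  have h00 : b (a 0) (a 0) = 1 := by rw [ha 0 0, if_pos rfl]
  -- the family without a 0
  have ht : ONB_O b (fun i : Fin k => a i.succ) := by
    intro i j
    rw [ha i.succ j.succ]
    simp only [Fin.succ_inj]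
  have h0s : ∀ i : Fin k, b (a 0) (a i.succ) = 0 := by
    intro i
    rw [ha 0 i.succ, if_neg (Fin.succ_ne_zero i).symm]
  obtain ⟨a1, ha1⟩ : ∃ a1 : Fin (k + 1) → V, a1 = Fin.cons (a 0 + e + f) (fun i => a i.succ) :=
    ⟨_, rfl⟩
  have h1 : ONB_O b a1 := by
    intro i j
    rw [ha1]
    refine Fin.cases ?_ (fun i => ?_) i
    · refine Fin.cases ?_ (fun j => ?_) j
      · rw [Fin.cons_zero, if_pos rfl]
        simp only [map_add, LinearMap.add_apply, h00, he', hf', he, hf, hee, hff, hef, hfe]
        linear_combination e11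
      · rw [Fin.cons_zero, Fin.cons_succ, if_neg (Fin.succ_ne_zero j).symm]
        simp only [map_add, LinearMap.add_apply, h0s, he, hf, add_zero]
    · refine Fin.cases ?_ (fun j => ?_) j
      · rw [Fin.cons_zero, Fin.cons_succ, if_neg (Fin.succ_ne_zero i), hs]
        simp only [map_add, LinearMap.add_apply, h0s, he, hf, add_zero]
      · rw [Fin.cons_succ, Fin.cons_succ, ht i j]
        simp only [Fin.succ_inj]
  have hgen : ∀ (x : V), b x (a 0 + e + f) = 0 → (∀ i : Fin k, b x (a i.succ) = 0) →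
      ∀ i, b x (a1 i) = 0 := by
    intro x hx1 hx2 i
    rw [ha1]
    refine Fin.cases ?_ (fun i => ?_) i
    · rw [Fin.cons_zero]
      exact hx1
    · rw [Fin.cons_succ]
      exact hx2 i
  obtain ⟨a2, ha2⟩ : ∃ a2 : Fin (k + 1 + 1) → V, a2 = Fin.cons (a 0 + f) a1 := ⟨_, rfl⟩
  have hw2 : ∀ i, b (a 0 + f) (a1 i) = 0 := by
    refine hgen _ ?_ ?_
    · simp only [map_add, LinearMap.add_apply, h00, he', hf', he, hf, hff, hfe]
      linear_combination e11
    · intro i
      simp only [map_add, LinearMap.add_apply, h0s, hf, add_zero]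
  have hn2 : b (a 0 + f) (a 0 + f) = 1 := by
    simp only [map_add, LinearMap.add_apply, h00, hf', hf, hff, add_zero]
  have h2' : ONB_O b a2 := by
    intro i j
    rw [ha2]
    refine Fin.cases ?_ (fun i => ?_) i
    · refine Fin.cases ?_ (fun j => ?_) j
      · rw [Fin.cons_zero, hn2, if_pos rfl]
      · rw [Fin.cons_zero, Fin.cons_succ, hw2 j, if_neg (Fin.succ_ne_zero j).symm]
    · refine Fin.cases ?_ (fun j => ?_) j
      · rw [Fin.cons_zero, Fin.cons_succ, hs, hw2 i, if_neg (Fin.succ_ne_zero i)]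
      · rw [Fin.cons_succ, Fin.cons_succ, h1 i j]
        simp only [Fin.succ_inj]
  refine ONB_app b hs a2 h2' (a 0 + e) ?_ ?_
  · simp only [map_add, LinearMap.add_apply, h00, he', he, hee, add_zero]
  · intro i
    rw [ha2]
    refine Fin.cases ?_ (fun i => ?_) i
    · rw [Fin.cons_zero]
      simp only [map_add, LinearMap.add_apply, h00, he', hf', he, hef, add_zero, zero_add]
      exact e11
    · rw [Fin.cons_succ]
      refine hgen _ ?_ ?_ i
      · simp only [map_add, LinearMap.add_apply, h00, he', hf', he, hee, hef]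
        linear_combination e11
      · intro i
        simp only [map_add, LinearMap.add_apply, h0s, he, add_zero]

/-- the general lemma -/
theorem ONB_gen {F V : Type} [Field F] [Finite F] [AddCommGroup V] [Module F V]
    [FiniteDimensional F V] (h2 : (2 : F) = 0) (b : LinearMap.BilinForm F V)
    (hs : ∀ x y, b x y = b y x) (hnd : ∀ x, (∀ y, b x y = 0) → x = 0) (x₀ : V)
    (hx₀ : b x₀ x₀ ≠ 0) : ∃ u : Basis (Fin (finrank F V)) F V,
      ∀ i j, b (u i) (u j) = if i = j then 1 else 0 := by
  classical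
  obtain ⟨P, hP⟩ : ∃ P : ℕ → Prop, P = fun k => ∃ a : Fin k → V, ONB_O b a := ⟨_, rfl⟩
  have hle : ∀ k, P k → k ≤ finrank F V := by
    intro k hk
    rw [hP] at hk
    obtain ⟨a, ha⟩ := hk
    have := (ONB_li b a ha).fintype_card_le_finrank
    rwa [Fintype.card_fin] at this
  have hP1 : P 1 := by
    rw [hP]
    obtain ⟨c, hc⟩ := ONB_scale b h2 x₀ hx₀
    refine ⟨fun _ => c • x₀, ?_⟩
    intro i j
    rw [hc, if_pos (Subsingleton.elim i j)]
  obtain ⟨m, hm⟩ : ∃ m, m = Nat.findGreatest P (finrank F V) := ⟨_, rfl⟩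
  have hPm : P m := by
    rw [hm]
    exact Nat.findGreatest_spec (hle 1 hP1) hP1
  have hm1 : 1 ≤ m := by
    rw [hm]
    exact Nat.le_findGreatest (hle 1 hP1) hP1
  have hmax : ∀ k, P k → k ≤ m := by
    intro k hk
    rw [hm]
    exact Nat.le_findGreatest (hle k hk) hk
  have hmf : m = finrank F V := by
    by_contra hne
    have hlt : m < finrank F V := lt_of_le_of_ne (hle m hPm) hne
    rw [hP] at hPm
    obtain ⟨a, ha⟩ := hPm
    -- a vector orthogonal to the family
    have hker : ∃ w : V, w ≠ 0 ∧ ∀ i, b w (a i) = 0 := by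
      let L : V →ₗ[F] (Fin m → F) := LinearMap.pi fun i => b.flip (a i)
      have h1 : LinearMap.ker L ≠ ⊥ := by
        intro hbot
        have h3 := LinearMap.finrank_le_finrank_of_injective (LinearMap.ker_eq_bot.1 hbot)
        rw [Module.finrank_fin_fun] at h3
        omega
      obtain ⟨w, hw, hw0⟩ := Submodule.exists_mem_ne_zero_of_ne_bot h1
      refine ⟨w, hw0, fun i => ?_⟩
      have h3 := congrFun (LinearMap.mem_ker.1 hw) i
      exact h3
    obtain ⟨e, he0, he⟩ := hker
    have halt : ∀ w : V, (∀ i, b w (a i) = 0) → b w w = 0 := by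
      intro w hw
      by_contra hww
      obtain ⟨c, hc⟩ := ONB_scale b h2 w hww
      have h3 := ONB_app b hs a ha (c • w) hc (fun i => by
        rw [map_smul, LinearMap.smul_apply, hw i, smul_zero])
      have h4 : P (m + 1) := by rw [hP]; exact h3
      have := hmax _ h4
      omega
    obtain ⟨v, hv⟩ : ∃ v, b e v ≠ 0 := by
      by_contra hcon
      push Not at hcon
      exact he0 (hnd e hcon)
    obtain ⟨v', hv'⟩ : ∃ v', v' = v - ∑ i, b v (a i) • a i := ⟨_, rfl⟩
    have hv'a : ∀ i, b v' (a i) = 0 := by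
      intro i
      rw [hv']
      exact ONB_proj b a ha v i
    have hev' : b e v' = b e v := by
      rw [hv', map_sub, map_sum]
      have : ∀ i ∈ Finset.univ, b e (b v (a i) • a i) = 0 := by
        intro i _
        rw [map_smul, he i, smul_zero]
      rw [Finset.sum_eq_zero this, sub_zero]
    obtain ⟨f, hf⟩ : ∃ f, f = (b e v)⁻¹ • v' := ⟨_, rfl⟩
    have hfa : ∀ i, b f (a i) = 0 := by
      intro i
      rw [hf, map_smul, LinearMap.smul_apply, hv'a i, smul_zero]
    have hef : b e f = 1 := by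
      rw [hf, map_smul, hev', smul_eq_mul, inv_mul_cancel₀ hv]
    obtain ⟨k, rfl⟩ : ∃ k, m = k + 1 := ⟨m - 1, by omega⟩
    have h3 := ONB_three h2 b hs a ha e f (halt e he) (halt f hfa) hef he hfa
    have h4 : P (k + 1 + 1 + 1) := by rw [hP]; exact h3
    have := hmax _ h4
    omega
  rw [hmf, hP] at hPm
  obtain ⟨a, ha⟩ := hPm
  have hli := ONB_li b a ha
  refine ⟨basisOfLinearIndependentOfCardEqFinrank' a hli (Fintype.card_fin _), ?_⟩
  intro i j
  rw [coe_basisOfLinearIndependentOfCardEqFinrank']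
  exact ha i j

theorem ONB (bf : GS.BF_stmt) : ONB_stmt := by
  intro F K _ _ _ _ _ h2
  have : Finite F := Finite.of_injective (algebraMap F K) (algebraMap F K).injective
  have hS := (bf (F := F) (K := K)).1 1 one_ne_zero
  have hbf : ∀ x y : K, Pool.Agent.GS.bf F K 1 x y = Algebra.trace F K (x * y) := by
    intro x y
    change Algebra.trace F K (1⁻¹ * x * y) = _
    rw [inv_one, one_mul]
  have h2K : (2 : K) = 0 := by
    have := congrArg (algebraMap F K) h2
    rwa [map_ofNat, map_zero] at this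
  obtain ⟨y, hy⟩ : ∃ y : K, Algebra.trace F K y ≠ 0 := by
    by_contra hcon
    push Not at hcon
    refine one_ne_zero (α := K) (hS.nd 1 fun y => ?_)
    rw [hbf, one_mul]
    exact hcon y
  have hcK : ringChar K = 2 := by
    have := charP2 h2K
    exact ringChar.eq K 2
  obtain ⟨x, hx⟩ := FiniteField.isSquare_of_char_two hcK y
  obtain ⟨u, hu⟩ := ONB_gen h2 (Pool.Agent.GS.bf F K 1) hS.symm hS.nd x (by
    rw [hbf, ← hx]
    exact hy)
  refine ⟨u, fun i j => ?_⟩
  rw [← hbf]
  exact hu i j

end Pool.Agent.ORE
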